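import Pool.Agent.Q108.FF.Five

set_option autoImplicit false
set_option linter.unusedSectionVars false

open Finset

/-!
If the vertices off a circuit C of a cubic graph induce a bipartite graph, then G - E(C) has a
proper 3-edge-colouring. The theorem of Koenig is copied from Pool.Agent.H931R3.LAPet.
-/

namespace Pool.Agent.Q108.FF

open Pool.Agent.Helper347.Sab
open Pool.Agent.Results.MP_0c3aa4_co.ThroughDominating
open Pool.Agent.Helper998.Near

/-- Koenig: a regular bipartite multigraph is the union of perfect matchings. -/
theorem konig {V E : Type} [Fintype V] [DecidableEq V] [DecidableEq E] (l r : E → V) :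
    ∀ (m : ℕ) (A : Finset E), (∀ v, (A.filter (fun e => l e = v)).card = m) →
    (∀ v, (A.filter (fun e => r e = v)).card = m) →
    ∃ ℓ : E → ℕ, (∀ e ∈ A, ℓ e < m) ∧
      (∀ e ∈ A, ∀ e' ∈ A, l e = l e' → ℓ e = ℓ e' → e = e') ∧
      (∀ e ∈ A, ∀ e' ∈ A, r e = r e' → ℓ e = ℓ e' → e = e') := by
  intro m
  induction m with
  | zero =>
    intro A h1 _
    have hA : ∀ e, e ∉ A := by
      intro e he
      have := h1 (l e)
      rw [Finset.card_eq_zero] at this
      have h2 : e ∈ A.filter (fun x => l x = l e) := Finset.mem_filter.mpr ⟨he, rfl⟩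
      rw [this] at h2
      exact absurd h2 (Finset.notMem_empty _)
    exact ⟨fun _ => 0, fun e he => absurd he (hA e), fun e he => absurd he (hA e),
      fun e he => absurd he (hA e)⟩
  | succ m ih =>
    intro A h1 h2
    let t : V → Finset V := fun v => (A.filter (fun e => l e = v)).image r
    have hall : ∀ S : Finset V, S.card ≤ (S.biUnion t).card := by
      intro S
      have hB : (A.filter (fun e => l e ∈ S)).card = S.card * (m + 1) := by
        rw [Finset.card_eq_sum_card_fiberwise (f := l) (t := S)]
        · have : ∀ v ∈ S, ((A.filter (fun e => l e ∈ S)).filter (fun e => l e = v)).card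
              = m + 1 := by
            intro v hv
            rw [← h1 v, Finset.filter_filter]
            congr 1
            ext e
            simp only [Finset.mem_filter]
            constructor
            · rintro ⟨a, _, b⟩; exact ⟨a, b⟩
            · rintro ⟨a, b⟩; exact ⟨a, b ▸ hv, b⟩
          rw [Finset.sum_congr rfl this, Finset.sum_const, smul_eq_mul]
        · intro e he
          have := (Finset.mem_filter.mp he).2
          exact this
      have hB2 : (A.filter (fun e => l e ∈ S)).card ≤ (m + 1) * (S.biUnion t).card := by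
        refine Finset.card_le_mul_card_image_of_maps_to (f := r) ?_ (m + 1) ?_
        · intro e he
          obtain ⟨ha, hs⟩ := Finset.mem_filter.mp he
          rw [Finset.mem_biUnion]
          exact ⟨l e, hs, Finset.mem_image.mpr ⟨e, Finset.mem_filter.mpr ⟨ha, rfl⟩, rfl⟩⟩
        · intro w _
          rw [← h2 w]
          refine Finset.card_le_card ?_
          intro e he
          simp only [Finset.mem_filter] at he ⊢
          exact ⟨he.1.1, he.2⟩
      rw [hB] at hB2
      nlinarith
    obtain ⟨g, hg1, hg2⟩ := (Finset.all_card_le_biUnion_card_iff_exists_injective t).mp hall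
    have hg3 : ∀ v, ∃ e, e ∈ A ∧ l e = v ∧ r e = g v := by
      intro v
      have := hg2 v
      simp only [t, Finset.mem_image, Finset.mem_filter] at this
      obtain ⟨e, ⟨h1, h2⟩, h3⟩ := this
      exact ⟨e, h1, h2, h3⟩
    choose e he1 he2 he3 using hg3
    have hgb : Function.Bijective g := Finite.injective_iff_bijective.mp hg1
    let A' : Finset E := A.filter (fun x => ∀ v, x ≠ e v)
    have hA' : ∀ x, x ∈ A' ↔ x ∈ A ∧ ∀ v, x ≠ e v := fun x => Finset.mem_filter
    have c1 : ∀ v, (A'.filter (fun x => l x = v)).card = m := by
      intro v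
      have h3 : A'.filter (fun x => l x = v) = (A.filter (fun x => l x = v)).erase (e v) := by
        ext x
        rw [Finset.mem_filter, hA', Finset.mem_erase, Finset.mem_filter]
        constructor
        · rintro ⟨⟨a, b⟩, d⟩; exact ⟨b v, a, d⟩
        · rintro ⟨a, b, d⟩
          refine ⟨⟨b, ?_⟩, d⟩
          rintro w rfl
          rw [he2] at d
          exact a (by rw [d])
      rw [h3, Finset.card_erase_of_mem (Finset.mem_filter.mpr ⟨he1 v, he2 v⟩), h1 v]
      rfl
    have c2 : ∀ w, (A'.filter (fun x => r x = w)).card = m := by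
      intro w
      obtain ⟨v, rfl⟩ := hgb.2 w
      have h3 : A'.filter (fun x => r x = g v) = (A.filter (fun x => r x = g v)).erase (e v) := by
        ext x
        rw [Finset.mem_filter, hA', Finset.mem_erase, Finset.mem_filter]
        constructor
        · rintro ⟨⟨a, b⟩, d⟩; exact ⟨b v, a, d⟩
        · rintro ⟨a, b, d⟩
          refine ⟨⟨b, ?_⟩, d⟩
          rintro w rfl
          rw [he3] at d
          exact a (by rw [hg1 d])
      rw [h3, Finset.card_erase_of_mem (Finset.mem_filter.mpr ⟨he1 v, he3 v⟩), h2 (g v)]
      rfl
    obtain ⟨ℓ, l1, l2, l3⟩ := ih A' c1 c2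
    have hout : ∀ x ∈ A, x ∉ A' → ∃ v, x = e v := by
      intro x hx hx'
      rw [hA'] at hx'
      by_contra hcon
      push Not at hcon
      exact hx' ⟨hx, hcon⟩
    refine ⟨fun x => if x ∈ A' then ℓ x else m, ?_, ?_, ?_⟩
    · intro x _
      by_cases h : x ∈ A'
      · simp only [h, if_true]
        have := l1 x h
        omega
      · simp only [h, if_false]
        omega
    · intro x hx y hy hl hxy
      by_cases h : x ∈ A'
      · by_cases h' : y ∈ A'
        · simp only [h, h', if_true] at hxy
          exact l2 x h y h' hl hxy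
        · simp only [h, h', if_true, if_false] at hxy
          have := l1 x h
          omega
      · by_cases h' : y ∈ A'
        · simp only [h, h', if_true, if_false] at hxy
          have := l1 y h'
          omega
        · obtain ⟨v, rfl⟩ := hout x hx h
          obtain ⟨w, rfl⟩ := hout y hy h'
          rw [he2, he2] at hl
          rw [hl]
    · intro x hx y hy hl hxy
      by_cases h : x ∈ A'
      · by_cases h' : y ∈ A'
        · simp only [h, h', if_true] at hxy
          exact l3 x h y h' hl hxy
        · simp only [h, h', if_true, if_false] at hxy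
          have := l1 x h
          omega
      · by_cases h' : y ∈ A'
        · simp only [h, h', if_true, if_false] at hxy
          have := l1 y h'
          omega
        · obtain ⟨v, rfl⟩ := hout x hx h
          obtain ⟨w, rfl⟩ := hout y hy h'
          rw [he3, he3] at hl
          rw [hg1 hl]

variable {V E : Type} [Fintype V] [DecidableEq V] [Fintype E] [DecidableEq E]

/-- The vertices off C can be coloured with two colours such that adjacent ones differ. -/
def BipartiteOff (G : MGraph V E) (C : Finset E) : Prop :=
  ∃ s : V → Bool, ∀ e a b, G.ends e = s(a, b) → dg G C a = 0 → dg G C b = 0 → s a ≠ s b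

/-- every vertex of C has exactly one edge outside C -/
theorem one_leg (G : MGraph V E) (hG : IsCubic G) (C : Finset E) (v : V) (h : dg G C v = 2)
    (e f : E) (he : e ∉ C) (hf : f ∉ C) (hve : v ∈ G.ends e) (hvf : v ∈ G.ends f) : e = f := by
  by_contra hef
  have h1 := dg_sdiff (G := G) (X := univ) (Y := C) (subset_univ _) v
  rw [hG v, h] at h1
  have h2 : 2 ≤ dg G (univ \ C) v := by
    unfold dg
    have h3 : ({e, f} : Finset E) ⊆ (univ \ C).filter fun e => v ∈ G.ends e := by
      intro x hx
      rw [mem_insert, mem_singleton] at hx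
      rw [mem_filter, mem_sdiff]
      rcases hx with rfl | rfl
      · exact ⟨⟨mem_univ _, he⟩, hve⟩
      · exact ⟨⟨mem_univ _, hf⟩, hvf⟩
    have h4 := card_le_card h3
    rw [card_pair hef] at h4
    exact h4
  omega

theorem colouring_of_bipartite (G : MGraph V E) (hG : IsCubic G) (C : Finset E)
    (hC : ∀ v, dg G C v = 0 ∨ dg G C v = 2) (hB : BipartiteOff G C) :
    ThreeColourable G (univ \ C) := by
  classical
  obtain ⟨s, hs⟩ := hB
  have hx := fun e => exists_ends G e
  choose a b hab hends using hx
  -- e is a leg: exactly one end off C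
  obtain ⟨Leg, hLeg⟩ : ∃ Leg : E → Prop, Leg = fun e =>
    (∃ p ∈ G.ends e, dg G C p = 0) ∧ ∃ p ∈ G.ends e, dg G C p ≠ 0 := ⟨_, rfl⟩
  obtain ⟨P, hP⟩ : ∃ P : E → Bool → Bool → V → Prop, P = fun e β t p =>
    p ∈ G.ends e ∧ dg G C p = 0 ∧ (Leg e ∨ s p = (β != t)) := ⟨_, rfl⟩
  -- uniqueness
  have huni : ∀ e β t p q, P e β t p → P e β t q → p = q := by
    intro e β t p q hp hq
    rw [hP] at hp hq
    by_contra hpq
    have he : G.ends e = s(p, q) := (Sym2.mem_and_mem_iff hpq).1 ⟨hp.1, hq.1⟩
    by_cases hl : Leg e
    · rw [hLeg] at hl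
      obtain ⟨-, r, hr, hr0⟩ := hl
      rw [he, Sym2.mem_iff] at hr
      rcases hr with rfl | rfl
      · exact hr0 hp.2.1
      · exact hr0 hq.2.1
    · have h1 := hp.2.2.resolve_left hl
      have h2 := hq.2.2.resolve_left hl
      exact hs e p q he hp.2.1 hq.2.1 (h1.trans h2.symm)
  -- the end functions; t = true: left, t = false: right
  obtain ⟨l, hl⟩ : ∃ l : Bool → (E × Bool) ⊕ (V × Fin 3) → V, l = fun t x =>
    match x with
    | Sum.inl (e, β) => if h : ∃ p, P e β t p then h.choose else a e
    | Sum.inr (v, _) => v := ⟨_, rfl⟩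
  obtain ⟨A, hA⟩ : ∃ A : Finset ((E × Bool) ⊕ (V × Fin 3)), A = univ.filter fun x =>
    match x with
    | Sum.inl (e, β) => e ∉ C ∧ ((∀ p ∈ G.ends e, dg G C p = 0) ∨ (Leg e ∧ β = false))
    | Sum.inr (v, _) => dg G C v ≠ 0 := ⟨_, rfl⟩
  have hlP : ∀ t e β v, P e β t v → l t (Sum.inl (e, β)) = v := by
    intro t e β v h
    have h2 : ∃ p, P e β t p := ⟨v, h⟩
    rw [hl]
    simp only [dif_pos h2]
    exact huni e β t _ _ h2.choose_spec h
  have hAin : ∀ e β, Sum.inl (e, β) ∈ A → ∀ t, ∃ p, P e β t p := by
    intro e β h t
    rw [hA, mem_filter] at h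
    obtain ⟨-, hec, h | ⟨h, -⟩⟩ := h
    · have ha : a e ∈ G.ends e := by rw [hends]; simp
      have hb : b e ∈ G.ends e := by rw [hends]; simp
      have hne := hs e (a e) (b e) (hends e) (h _ ha) (h _ hb)
      rw [hP]
      by_cases hsa : s (a e) = (β != t)
      · exact ⟨a e, ha, h _ ha, Or.inr hsa⟩
      · refine ⟨b e, hb, h _ hb, Or.inr ?_⟩
        revert hne hsa
        generalize s (a e) = x
        generalize s (b e) = y
        generalize (β != t) = z
        revert x y z
        decide
    · have h2 := h
      rw [hLeg] at h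
      obtain ⟨p, hp, hp0⟩ := h.1
      rw [hP]
      exact ⟨p, hp, hp0, Or.inl h2⟩
  have hdeg : ∀ t v, (A.filter fun x => l t x = v).card = 3 := by
    intro t v
    by_cases hv : dg G C v = 0
    · have h1 : A.filter (fun x => l t x = v) =
          (univ.filter fun e => v ∈ G.ends e).image fun e =>
            (Sum.inl (e, if Leg e then false else (s v != t)) : (E × Bool) ⊕ (V × Fin 3)) := by
        ext x
        rw [mem_filter, mem_image]
        constructor
        · rintro ⟨hxA, hxl⟩
          rcases x with ⟨e, β⟩ | ⟨w, i⟩
          · obtain ⟨p, hp⟩ := hAin e β hxA t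
            have h2 := hlP t e β p hp
            rw [hxl] at h2
            subst h2
            rw [hP] at hp
            refine ⟨e, mem_filter.2 ⟨mem_univ _, hp.1⟩, ?_⟩
            rw [hA, mem_filter] at hxA
            obtain ⟨-, hec, h | ⟨h, h'⟩⟩ := hxA
            · have hnl : ¬ Leg e := by
                rw [hLeg]
                rintro ⟨-, q, hq, hq0⟩
                exact hq0 (h q hq)
              rw [if_neg hnl]
              have h3 := hp.2.2.resolve_left hnl
              have h4 : ∀ x y : Bool, ((x != y) != y) = x := by decide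
              rw [h3, h4]
            · rw [if_pos h, h']
          · exfalso
            rw [hl] at hxl
            rw [hA, mem_filter] at hxA
            exact hxA.2 (by rw [show w = v from hxl]; exact hv)
        · rintro ⟨e, he, rfl⟩
          rw [mem_filter] at he
          have hec : e ∉ C := by
            intro h
            have := dg_pos_of_mem (G := G) h he.2
            omega
          by_cases hle : Leg e
          · rw [if_pos hle]
            refine ⟨?_, hlP t e false v ?_⟩
            · rw [hA, mem_filter]
              exact ⟨mem_univ _, hec, Or.inr ⟨hle, rfl⟩⟩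
            · rw [hP]
              exact ⟨he.2, hv, Or.inl hle⟩
          · rw [if_neg hle]
            refine ⟨?_, hlP t e _ v ?_⟩
            · rw [hA, mem_filter]
              refine ⟨mem_univ _, hec, Or.inl ?_⟩
              intro p hp
              by_contra hp0
              apply hle
              rw [hLeg]
              exact ⟨⟨v, he.2, hv⟩, p, hp, hp0⟩
            · rw [hP]
              refine ⟨he.2, hv, Or.inr ?_⟩
              generalize s v = z
              revert z t
              decide
      rw [h1, card_image_of_injective]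
      · exact hG v
      · intro e f h
        exact (Prod.ext_iff.1 (Sum.inl.inj h)).1
    · have h1 : A.filter (fun x => l t x = v) =
          (univ : Finset (Fin 3)).image fun i =>
            (Sum.inr (v, i) : (E × Bool) ⊕ (V × Fin 3)) := by
        ext x
        rw [mem_filter, mem_image]
        constructor
        · rintro ⟨hxA, hxl⟩
          rcases x with ⟨e, β⟩ | ⟨w, i⟩
          · exfalso
            obtain ⟨p, hp⟩ := hAin e β hxA t
            have h2 := hlP t e β p hp
            rw [hxl] at h2
            subst h2
            rw [hP] at hp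
            exact hv hp.2.1
          · rw [hl] at hxl
            exact ⟨i, mem_univ _, by rw [show w = v from hxl]⟩
        · rintro ⟨i, -, rfl⟩
          refine ⟨?_, ?_⟩
          · rw [hA, mem_filter]
            exact ⟨mem_univ _, hv⟩
          · rw [hl]
      rw [h1, card_image_of_injective]
      · simp
      · intro i j h
        exact (Prod.ext_iff.1 (Sum.inr.inj h)).2
  obtain ⟨c, hc3, hcl, hcr⟩ := konig (l true) (l false) 3 A (hdeg true) (hdeg false)
  refine ⟨fun e => if h : c (Sum.inl (e, false)) < 3 then ⟨c (Sum.inl (e, false)), h⟩ else 0, ?_⟩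
  intro e he f hf hef ⟨v, hve, hvf⟩
  have hec := (mem_sdiff.1 he).2
  have hfc := (mem_sdiff.1 hf).2
  rcases hC v with hv | hv
  · have hmem : ∀ g, g ∉ C → v ∈ G.ends g → (Sum.inl (g, false) : (E × Bool) ⊕ (V × Fin 3)) ∈ A := by
      intro g hg hvg
      rw [hA, mem_filter]
      refine ⟨mem_univ _, hg, ?_⟩
      by_cases hle : Leg g
      · exact Or.inr ⟨hle, rfl⟩
      · left
        intro p hp
        by_contra hp0
        apply hle
        rw [hLeg]
        exact ⟨⟨v, hvg, hv⟩, p, hp, hp0⟩
    have hPv : ∀ g, v ∈ G.ends g → P g false (s v) v := by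
      intro g hvg
      rw [hP]
      refine ⟨hvg, hv, Or.inr ?_⟩
      generalize s v = z
      revert z
      decide
    have h1 := hc3 _ (hmem e hec hve)
    have h2 := hc3 _ (hmem f hfc hvf)
    simp only [dif_pos h1, dif_pos h2]
    intro h3
    have h4 : c (Sum.inl (e, false)) = c (Sum.inl (f, false)) := by
      have := congrArg Fin.val h3
      exact this
    have h5 : l (s v) (Sum.inl (e, false)) = l (s v) (Sum.inl (f, false)) := by
      rw [hlP _ _ _ _ (hPv e hve), hlP _ _ _ _ (hPv f hvf)]
    have h6 : (Sum.inl (e, false) : (E × Bool) ⊕ (V × Fin 3)) = Sum.inl (f, false) := by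
      rcases hsv : s v with _ | _
      · rw [hsv] at h5
        exact hcr _ (hmem e hec hve) _ (hmem f hfc hvf) h5 h4
      · rw [hsv] at h5
        exact hcl _ (hmem e hec hve) _ (hmem f hfc hvf) h5 h4
    exact hef (Prod.ext_iff.1 (Sum.inl.inj h6)).1
  · exact absurd (one_leg G hG C v hv e f hec hfc hve hvf) hef

end Pool.Agent.Q108.FF
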