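import Pool.Agent.Q108.FF.Five
import Pool.Agent.TH362.TF.Main

set_option autoImplicit false
set_option linter.unusedSectionVars false

open Finset

/-!
Nowhere-zero 4-flows of the graph obtained by contracting the circuits of a 2-regular subgraph when
at most nine vertices remain.
-/

namespace Pool.Agent.Q108.FF

open Pool.Agent.Helper347.Sab
open Pool.Agent.Results.MP_0c3aa4_co.ThroughDominating
open Pool.Agent.Helper998.Near

variable {V E : Type} [Fintype V] [DecidableEq V] [Fintype E] [DecidableEq E]

/-- No edge is a bridge: the ends of every edge are joined by a path avoiding it. -/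
def Bridgeless (G : MGraph V E) : Prop :=
  ∀ e a b, G.ends e = s(a, b) → Rch G (univ.erase e) a b

theorem class_sum (G : MGraph V E) (π : V → V) (a b : E → V) (hab : ∀ e, a e ≠ b e)
    (hends : ∀ e, G.ends e = s(a e, b e)) (T : Finset E) (K : V) :
    (∑ v, if π v = K then dg G T v else 0) =
      ∑ e ∈ T, ((if π (a e) = K then 1 else 0) + (if π (b e) = K then 1 else 0)) := by
  have h1 : ∀ v, (if π v = K then dg G T v else 0) =
      ∑ e ∈ T, ((if v = a e then (if π v = K then 1 else 0) else 0) +
        (if v = b e then (if π v = K then 1 else 0) else 0)) := by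
    intro v
    unfold dg
    rw [card_filter]
    by_cases hv : π v = K
    · rw [if_pos hv]
      refine sum_congr rfl fun e _ => ?_
      have h4 : v ∈ G.ends e ↔ v = a e ∨ v = b e := by rw [hends e, Sym2.mem_iff]
      rw [if_pos hv]
      by_cases h2 : v = a e
      · have h3 : v ≠ b e := fun h => hab e (h2.symm.trans h)
        rw [if_pos (h4.2 (Or.inl h2)), if_pos h2, if_neg h3]
      · by_cases h3 : v = b e
        · rw [if_pos (h4.2 (Or.inr h3)), if_neg h2, if_pos h3]
        · rw [if_neg (fun h => by rcases h4.1 h with h | h; exacts [h2 h, h3 h]), if_neg h2,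
            if_neg h3]
    · rw [if_neg hv]
      symm
      refine sum_eq_zero fun e _ => ?_
      rw [if_neg hv, ite_self, ite_self, add_zero]
  rw [sum_congr rfl fun v _ => h1 v, sum_comm]
  refine sum_congr rfl fun e _ => ?_
  rw [sum_add_distrib, sum_ite_eq' univ (a e) , sum_ite_eq' univ (b e)]
  simp

/-- an even set outside S, up to the classes of S, can be completed inside S -/
theorem complete_reg (G : MGraph V E) (S T : Finset E) (π : V → V)
    (hπ : ∀ v, Rch G S v (π v)) (hTS : Disjoint T S)
    (hT : ∀ K, Even (∑ v, if π v = K then dg G T v else 0)) :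
    ∃ T' : Finset E, Ev G T' ∧ ∀ e, e ∉ S → (e ∈ T' ↔ e ∈ T) := by
  obtain ⟨J, hJC, hJ⟩ := join G S (fun w => ((dg G T w : ℕ) : ZMod 2)) π (fun v _ => hπ v)
  have hJ' : ∀ w, ((dg G J w : ℕ) : ZMod 2) = ((dg G T w : ℕ) : ZMod 2) := by
    intro w
    rw [hJ w]
    have h1 : (∑ v, if w = π v then ((dg G T v : ℕ) : ZMod 2) else 0) = 0 := by
      have h2 := (even_iff_cast _).1 (hT w)
      rw [Nat.cast_sum] at h2
      refine Eq.trans (sum_congr rfl fun v _ => ?_) h2
      by_cases hv : π v = w
      · rw [if_pos hv.symm, if_pos hv]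
      · rw [if_neg (Ne.symm hv), if_neg hv, Nat.cast_zero]
    rw [h1, add_zero]
  have hdis : Disjoint J T := by
    rw [disjoint_left]
    intro e he h
    exact (disjoint_left.1 hTS h) (hJC he)
  refine ⟨T ∪ J, ?_, ?_⟩
  · intro w
    have h1 := dg_sdiff (G := G) (X := T ∪ J) (Y := T) subset_union_left w
    have h3 : (T ∪ J) \ T = J := by
      rw [union_sdiff_left]
      exact sdiff_eq_self_of_disjoint hdis
    rw [h3] at h1
    rw [even_iff_cast, ← h1, Nat.cast_add, hJ' w]
    exact CharTwo.add_self_eq_zero _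
  · intro e he
    rw [mem_union]
    constructor
    · rintro (h | h)
      · exact h
      · exact absurd (hJC h) he
    · intro h
      exact Or.inl h

/-- if the contracted graph has at most nine vertices, it has a nowhere-zero 4-flow -/
theorem flow_nine (G : MGraph V E) (S : Finset E) (π : V → V) (hπ : ∀ v, Rch G S v (π v))
    (hπ2 : ∀ a b, Rch G S a b → π a = π b) (hb : Bridgeless G) (T : Finset V) (hT : T.card ≤ 9)
    (hTπ : ∀ v, π v ∈ T) :
    ∃ A B : Finset E, Ev G A ∧ Ev G B ∧ ∀ e, e ∉ S → e ∈ A ∨ e ∈ B := by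
  classical
  have hx := fun e => exists_ends G e
  choose a b hab hends using hx
  have hn1 : Pool.Agent.TH362.TF.N1 (fun e => π (a e)) (fun e => π (b e)) (univ \ S) := by
    intro x hx
    obtain ⟨e, he⟩ := card_eq_one.1 hx
    have hmem : ∀ f, f ∈ Pool.Agent.TH362.TF.cut (fun e => π (a e)) (fun e => π (b e))
        (univ \ S) x ↔ f = e := by
      intro f; rw [he, mem_singleton]
    unfold Pool.Agent.TH362.TF.cut at hmem
    simp only [mem_filter, mem_sdiff, mem_univ, true_and] at hmem
    have hstep : ∀ u w, (∃ f ∈ univ.erase e, G.ends f = s(u, w)) → x (π u) = x (π w) := by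
      rintro u w ⟨f, hf, hfe⟩
      by_cases hfS : f ∈ S
      · rw [hπ2 u w (Relation.ReflTransGen.single ⟨f, hfS, hfe⟩)]
      · by_contra hne
        have h1 : x (π (a f)) ≠ x (π (b f)) := by
          rw [hends f, Sym2.eq_iff] at hfe
          rcases hfe with ⟨h2, h3⟩ | ⟨h2, h3⟩
          · rw [h2, h3]; exact hne
          · rw [h2, h3]; exact Ne.symm hne
        exact (mem_erase.1 hf).1 ((hmem f).1 ⟨hfS, h1⟩)
    have h2 := hb e (a e) (b e) (hends e)
    have h3 : x (π (a e)) = x (π (b e)) := by
      have h4 : ∀ w, Rch G (univ.erase e) (a e) w → x (π (a e)) = x (π w) := by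
        intro w hw
        induction hw with
        | refl => rfl
        | tail _ h ih => exact ih.trans (hstep _ _ h)
      exact h4 _ h2
    exact ((hmem e).2 rfl).2 h3
  have hodd : (Pool.Agent.TH362.TF.odd (fun e => π (a e)) (fun e => π (b e)) (univ \ S)).card ≤ 9 := by
    refine le_trans (card_le_card ?_) hT
    intro K hK
    unfold Pool.Agent.TH362.TF.odd Pool.Agent.TH362.TF.deg at hK
    rw [mem_filter] at hK
    by_contra hKT
    have h1 : ∑ e ∈ univ \ S, ((if π (a e) = K then 1 else 0) + (if π (b e) = K then 1 else 0)) =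
        0 := by
      refine sum_eq_zero fun e _ => ?_
      have c1 : π (a e) ≠ K := by intro h; apply hKT; rw [← h]; exact hTπ _
      have c2 : π (b e) ≠ K := by intro h; apply hKT; rw [← h]; exact hTπ _
      rw [if_neg c1, if_neg c2, add_zero]
    rw [h1] at hK
    exact absurd hK.2 (by decide)
  rcases Pool.Agent.TH362.TF.main16 _ _ _ hn1 (hodd.trans (by norm_num)) with h | h
  · obtain ⟨φ, hφ0, hφ⟩ := h
    have key : ∀ (p : ZMod 2 × ZMod 2 →+ ZMod 2), ∃ T' : Finset E, Ev G T' ∧
        ∀ e, e ∉ S → (e ∈ T' ↔ p (φ e) ≠ 0) := by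
      intro p
      obtain ⟨T', h1, h2⟩ := complete_reg G S ((univ \ S).filter fun e => p (φ e) ≠ 0) π hπ (by
        rw [disjoint_left]
        intro e he
        rw [mem_filter, mem_sdiff] at he
        exact he.1.2) (by
        intro K
        rw [class_sum G π a b hab hends, even_iff_cast, Nat.cast_sum]
        have h3 := congrArg p (hφ K)
        rw [map_sum, map_zero] at h3
        rw [sum_filter]
        refine Eq.trans (sum_congr rfl fun e _ => ?_) h3
        rw [map_add]
        push_cast
        have hz : ∀ z : ZMod 2, z ≠ 0 → z = 1 := by decide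
        by_cases hp : p (φ e) = 0
        · rw [if_neg (by simpa using hp)]
          by_cases c1 : π (a e) = K <;> by_cases c2 : π (b e) = K <;> simp [c1, c2, hp]
        · rw [if_pos hp]
          by_cases c1 : π (a e) = K <;> by_cases c2 : π (b e) = K <;> simp [c1, c2, hz _ hp])
      refine ⟨T', h1, fun e he => ?_⟩
      rw [h2 e he, mem_filter, mem_sdiff]
      exact ⟨fun h => h.2, fun h => ⟨⟨mem_univ _, he⟩, h⟩⟩
    obtain ⟨A, hA, hA2⟩ := key (AddMonoidHom.fst _ _)
    obtain ⟨B, hB, hB2⟩ := key (AddMonoidHom.snd _ _)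
    refine ⟨A, B, hA, hB, fun e he => ?_⟩
    rw [hA2 e he, hB2 e he]
    by_contra hcon
    push Not at hcon
    exact hφ0 e (mem_sdiff.2 ⟨mem_univ _, he⟩) (Prod.ext hcon.1 hcon.2)
  · have := Pool.Agent.TH362.TF.pq_card h
    omega

/-- the number of vertices off a 2-regular subgraph -/
theorem count_off (G : MGraph V E) (S : Finset E) (hS : ∀ v, dg G S v = 0 ∨ dg G S v = 2) :
    (univ.filter fun v => dg G S v = 0).card + S.card = Fintype.card V := by
  have h1 : ∑ v, dg G S v = 2 * S.card := by
    unfold dg
    have h2 : ∀ v, (S.filter fun e => v ∈ G.ends e).card =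
        ∑ e ∈ S, if v ∈ G.ends e then 1 else 0 := fun v => card_filter _ _
    rw [sum_congr rfl fun v _ => h2 v, sum_comm]
    have h3 : ∀ e ∈ S, (∑ v, if v ∈ G.ends e then 1 else 0) = 2 := by
      intro e _
      rw [← card_filter]
      exact card_ends G e
    rw [sum_congr rfl h3, sum_const, smul_eq_mul, mul_comm]
  have h4 : ∑ v, dg G S v = 2 * (univ.filter fun v => ¬ dg G S v = 0).card := by
    rw [card_filter, mul_sum]
    refine sum_congr rfl fun v _ => ?_
    rcases hS v with h | h <;> simp [h]
  have h5 := card_filter_add_card_filter_not (s := (univ : Finset V)) (fun v => dg G S v = 0)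
  rw [card_univ] at h5
  omega

end Pool.Agent.Q108.FF
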