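import Pool.Agent.Q108.FF.Scale

set_option autoImplicit false
set_option linter.unusedSectionVars false

open Finset

/-!
Five even subgraphs covering every edge exactly twice, one of them being a given 2-regular
subgraph S, whenever for every component K of G - E(S) the graph obtained from K and S by
contracting S has a nowhere-zero 4-flow; in particular for every circuit C such that G/E(C) has a
nowhere-zero 4-flow.
-/

namespace Pool.Agent.Q108.FF

open Pool.Agent.Helper347.Sab
open Pool.Agent.Results.MP_0c3aa4_co.ThroughDominating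
open Pool.Agent.Helper998.Near

variable {V E : Type} [Fintype V] [DecidableEq V] [Fintype E] [DecidableEq E]

/-- first coordinate -/
def p1 : F4 → ZMod 2
  | .o => 0
  | .i => 1
  | .w => 0
  | .v => 1

/-- second coordinate -/
def p2 : F4 → ZMod 2
  | .o => 0
  | .i => 0
  | .w => 1
  | .v => 1

theorem p1_add : ∀ a b : F4, p1 (a + b) = p1 a + p1 b := by decide
theorem p2_add : ∀ a b : F4, p2 (a + b) = p2 a + p2 b := by decide

theorem ev_coord (G : MGraph V E) (S : Finset E) (y : E → F4)
    (hyf : ∀ w, sm G S y w + sm G (univ \ S) y w = 0) (p : F4 → ZMod 2)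
    (hp : ∀ a b : F4, p (a + b) = p a + p b) :
    Ev G (univ.filter fun e => p (y e) = 1) := by
  intro w
  rw [even_iff_cast]
  let q : F4 →+ ZMod 2 := AddMonoidHom.mk' p hp
  have h0 : p 0 = 0 := map_zero q
  have hq : ∀ T : Finset E, p (sm G T y w) = ∑ e ∈ T, if w ∈ G.ends e then p (y e) else 0 := by
    intro T
    show q (sm G T y w) = _
    unfold sm
    rw [map_sum]
    refine sum_congr rfl fun e _ => ?_
    by_cases hw : w ∈ G.ends e
    · rw [if_pos hw, if_pos hw]; rfl
    · rw [if_neg hw, if_neg hw]; exact h0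
  have h1 : ((dg G (univ.filter fun e => p (y e) = 1) w : ℕ) : ZMod 2) =
      ∑ e ∈ univ, if w ∈ G.ends e then p (y e) else 0 := by
    unfold dg
    rw [filter_filter, card_filter, Nat.cast_sum]
    refine sum_congr rfl fun e _ => ?_
    by_cases hw : w ∈ G.ends e
    · simp only [hw, and_true, if_true]
      rcases z2_cases (p (y e)) with h | h <;> simp [h]
    · simp [hw]
  rw [h1]
  have h2 := hyf w
  have h3 : p (sm G S y w + sm G (univ \ S) y w) = 0 := by rw [h2]; exact h0
  rw [hp, hq, hq] at h3
  refine Eq.trans ?_ h3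
  rw [add_comm]
  exact (sum_sdiff (f := fun e => if w ∈ G.ends e then p (y e) else 0) (subset_univ S)).symm

theorem sets (G : MGraph V E) (S : Finset E) (rep : V → V)
    (hrep2 : ∀ v, Rch G (univ \ S) v (rep v)) (y : E → F4) (hy0 : ∀ e, e ∉ S → y e ≠ 0)
    (hyf : ∀ w, sm G S y w + sm G (univ \ S) y w = 0)
    (hyp : ∀ K, ∑ w, (if rep w = K then sm G S (fun e => nz (y e)) w else 0) = 0) :
    ∃ A B D : Finset E, Ev G A ∧ Ev G B ∧ Ev G D ∧ (∀ e, e ∉ S → e ∈ A ∨ e ∈ B) ∧
      ∀ e ∈ S, (e ∈ D ↔ e ∉ A ∧ e ∉ B) := by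
  obtain ⟨N, hN⟩ : ∃ N : Finset E, N = S.filter fun e => y e = 0 := ⟨_, rfl⟩
  have hNc : ∀ w, ((dg G N w : ℕ) : F4) = sm G S (fun e => nz (y e)) w := by
    intro w
    unfold dg sm
    rw [hN, filter_filter, card_filter, Nat.cast_sum]
    refine sum_congr rfl fun e _ => ?_
    by_cases hw : w ∈ G.ends e
    · by_cases h : y e = 0
      · simp [hw, h, nz]
      · simp [hw, h, nz]
    · simp [hw]
  have hNp : ∀ K, ∑ w, (if rep w = K then ((dg G N w : ℕ) : ZMod 2) else 0) = 0 := by
    intro K
    have h1 : ((∑ w, (if rep w = K then dg G N w else 0) : ℕ) : F4) = 0 := by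
      rw [Nat.cast_sum]
      refine Eq.trans (sum_congr rfl fun w _ => ?_) (hyp K)
      by_cases hw : rep w = K
      · rw [if_pos hw, if_pos hw, hNc]
      · rw [if_neg hw, if_neg hw, Nat.cast_zero]
    have h2 := (CharP.cast_eq_zero_iff F4 2 _).1 h1
    have h3 := (CharP.cast_eq_zero_iff (ZMod 2) 2 _).2 h2
    rw [Nat.cast_sum] at h3
    refine Eq.trans (sum_congr rfl fun w _ => ?_) h3
    by_cases hw : rep w = K
    · rw [if_pos hw, if_pos hw]
    · rw [if_neg hw, if_neg hw, Nat.cast_zero]
  obtain ⟨J, hJS, hJ⟩ := join G (univ \ S) (fun v => ((dg G N v : ℕ) : ZMod 2)) rep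
    (fun v _ => hrep2 v)
  have hJ' : ∀ w, ((dg G J w : ℕ) : ZMod 2) = ((dg G N w : ℕ) : ZMod 2) := by
    intro w
    rw [hJ w]
    have h1 : (∑ v, if w = rep v then ((dg G N v : ℕ) : ZMod 2) else 0) = 0 := by
      refine Eq.trans (sum_congr rfl fun v _ => ?_) (hNp w)
      by_cases hv : w = rep v
      · rw [if_pos hv, if_pos hv.symm]
      · rw [if_neg hv, if_neg (Ne.symm hv)]
    rw [h1, add_zero]
  have hNS : N ⊆ S := by rw [hN]; exact filter_subset _ _
  have hdis : Disjoint J N := by
    rw [disjoint_left]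
    intro e he h
    exact (mem_sdiff.1 (hJS he)).2 (hNS h)
  have hD : Ev G (N ∪ J) := by
    intro v
    have h1 := dg_sdiff (G := G) (X := N ∪ J) (Y := N) subset_union_left v
    have h3 : (N ∪ J) \ N = J := by
      rw [union_sdiff_left]
      exact sdiff_eq_self_of_disjoint hdis
    rw [h3] at h1
    rw [even_iff_cast, ← h1, Nat.cast_add, hJ' v]
    exact CharTwo.add_self_eq_zero _
  refine ⟨_, _, _, ev_coord G S y hyf p1 p1_add, ev_coord G S y hyf p2 p2_add, hD, ?_, ?_⟩
  · intro e he
    have h1 := hy0 e he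
    simp only [mem_filter, mem_univ, true_and]
    revert h1
    generalize y e = z
    revert z; decide
  · intro e he
    have h2 : e ∈ N ∪ J ↔ y e = 0 := by
      rw [mem_union, hN, mem_filter]
      constructor
      · rintro (h | h)
        · exact h.2
        · exact absurd he (mem_sdiff.1 (hJS h)).2
      · intro h
        exact Or.inl ⟨he, h⟩
    rw [h2]
    simp only [mem_filter, mem_univ, true_and]
    generalize y e = z
    revert z; decide

/-- G/E(S) decomposes along the components of G - E(S) into graphs with a nowhere-zero 4-flow: for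
every vertex v there are even subgraphs A and B whose edges outside S are exactly the edges outside
S in the component of v in G - E(S). -/
def LocalFlows (G : MGraph V E) (S : Finset E) : Prop :=
  ∀ v : V, ∃ A B : Finset E, Ev G A ∧ Ev G B ∧
    ∀ e, e ∉ S → ((e ∈ A ∨ e ∈ B) ↔ ∃ w ∈ G.ends e, Rch G (univ \ S) v w)

/-- the element of F4 with given membership -/
def enc (a b : Prop) [Decidable a] [Decidable b] : F4 :=
  (if a then F4.i else 0) + (if b then F4.w else 0)

theorem enc_zero (a b : Prop) [Decidable a] [Decidable b] : enc a b = 0 ↔ ¬ (a ∨ b) := by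
  unfold enc
  by_cases ha : a <;> by_cases hb : b <;> simp only [ha, hb, if_true, if_false] <;> decide

theorem sm_enc (G : MGraph V E) (A B : Finset E) (hA : Ev G A) (hB : Ev G B) (w : V) :
    sm G univ (fun e => enc (e ∈ A) (e ∈ B)) w = 0 := by
  have h1 : ∀ (T : Finset E) (c : F4), Ev G T →
      (∑ e : E, if w ∈ G.ends e then (if e ∈ T then c else 0) else 0) = 0 := by
    intro T c hT
    have h2 : (∑ e : E, if w ∈ G.ends e then (if e ∈ T then c else 0) else 0) =
        ((dg G T w : ℕ) : F4) * c := by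
      unfold dg
      rw [card_filter, Nat.cast_sum, sum_mul, ← sum_subset (subset_univ T)]
      · refine sum_congr rfl fun e he => ?_
        by_cases hw : w ∈ G.ends e <;> simp [hw, he]
      · intro e _ he
        simp [he]
    rw [h2]
    have h3 := (hT w).two_dvd
    rw [(CharP.cast_eq_zero_iff F4 2 _).2 h3, zero_mul]
  unfold sm enc
  have h4 : ∀ e : E, (if w ∈ G.ends e then
      ((if e ∈ A then F4.i else 0) + (if e ∈ B then F4.w else 0)) else 0) =
      (if w ∈ G.ends e then (if e ∈ A then F4.i else 0) else 0) +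
      (if w ∈ G.ends e then (if e ∈ B then F4.w else 0) else 0) := by
    intro e
    by_cases hw : w ∈ G.ends e
    · rw [if_pos hw, if_pos hw, if_pos hw]
    · rw [if_neg hw, if_neg hw, if_neg hw, add_zero]
  rw [sum_congr rfl fun e _ => h4 e, sum_add_distrib, h1 A _ hA, h1 B _ hB, add_zero]

theorem many (G : MGraph V E) (hG : IsCubic G) (S : Finset E) (hS : TwoRegular G S)
    (hF : LocalFlows G S) :
    ∃ A B D : Finset E, Ev G A ∧ Ev G B ∧ Ev G D ∧ (∀ e, e ∉ S → e ∈ A ∨ e ∈ B) ∧
      ∀ e ∈ S, (e ∈ D ↔ e ∉ A ∧ e ∉ B) := by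
  classical
  choose A B hA hB hAB using hF
  let st : Setoid V := ⟨fun a b => Rch G (univ \ S) a b, ⟨fun _ => Relation.ReflTransGen.refl,
    fun {a b} h => rch_symm G _ a b h, fun {a b c} h1 h2 => Relation.ReflTransGen.trans h1 h2⟩⟩
  let rep : V → V := fun v => (Quotient.mk st v).out
  have hrep2 : ∀ v, Rch G (univ \ S) v (rep v) := by
    intro v
    have h : st.r (rep v) v := Quotient.exact (Quotient.out_eq (Quotient.mk st v))
    exact rch_symm G _ _ _ h
  have hrep0 : ∀ a b, Rch G (univ \ S) a b → rep a = rep b := by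
    intro a b h
    show (Quotient.mk st a).out = (Quotient.mk st b).out
    rw [Quotient.sound (s := st) h]
  have hedge : ∀ e, e ∉ S → ∀ u ∈ G.ends e, ∀ w ∈ G.ends e, Rch G (univ \ S) u w := by
    intro e he u hu w hw
    by_cases huw : u = w
    · rw [huw]
    · exact Relation.ReflTransGen.single
        ⟨e, mem_sdiff.2 ⟨mem_univ _, he⟩, (Sym2.mem_and_mem_iff huw).1 ⟨hu, hw⟩⟩
  have hu : ∀ e, ∃ u, u ∈ G.ends e := by
    intro e
    obtain ⟨a, b, _, h⟩ := exists_ends G e
    exact ⟨a, by rw [h]; simp⟩
  choose u hu using hu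
  obtain ⟨x, hx⟩ : ∃ x : E → F4, x = fun e => enc (e ∈ A (rep (u e))) (e ∈ B (rep (u e))) :=
    ⟨_, rfl⟩
  have hxe : ∀ e, e ∉ S → ∀ w ∈ G.ends e, x e = enc (e ∈ A (rep w)) (e ∈ B (rep w)) := by
    intro e he w hw
    rw [hx, hrep0 _ _ (hedge e he w hw (u e) (hu e))]
  obtain ⟨P, hPd⟩ : ∃ P : V → E → F4, P = fun K e =>
      if rep K = K then enc (e ∈ A K) (e ∈ B K) else 0 := ⟨_, rfl⟩
  have hP : ∀ K w, sm G S (P K) w = if rep w = K then sm G (univ \ S) x w else 0 := by
    intro K w
    by_cases hK : rep K = K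
    · have h1 : sm G univ (P K) w = 0 := by
        rw [hPd]
        simp only [hK, if_true]
        exact sm_enc G (A K) (B K) (hA K) (hB K) w
      have h2 : sm G (univ \ S) (P K) w + sm G S (P K) w = 0 := by
        rw [← h1]
        exact sum_sdiff (subset_univ S)
      have h3 : sm G S (P K) w = sm G (univ \ S) (P K) w := by
        have : ∀ a b : F4, a + b = 0 → b = a := by decide
        exact this _ _ h2
      rw [h3]
      unfold sm
      by_cases hw : rep w = K
      · rw [if_pos hw]
        refine sum_congr rfl fun e he => ?_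
        by_cases hwe : w ∈ G.ends e
        · rw [if_pos hwe, if_pos hwe, hxe e (mem_sdiff.1 he).2 w hwe, hw, hPd]
          simp only [hK, if_true]
        · rw [if_neg hwe, if_neg hwe]
      · rw [if_neg hw]
        refine sum_eq_zero fun e he => ?_
        by_cases hwe : w ∈ G.ends e
        · rw [if_pos hwe, hPd]
          simp only [hK, if_true]
          rw [enc_zero, hAB K e (mem_sdiff.1 he).2]
          rintro ⟨w', hw', hr⟩
          apply hw
          rw [← hK]
          exact (hrep0 _ _ (hr.trans (hedge e (mem_sdiff.1 he).2 w' hw' w hwe))).symm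
        · rw [if_neg hwe]
    · have hw : rep w ≠ K := by
        intro h
        apply hK
        rw [← h]
        exact (hrep0 _ _ (hrep2 w)).symm
      rw [if_neg hw]
      unfold sm
      refine sum_eq_zero fun e he => ?_
      rw [hPd]
      simp only [hK, if_false, ite_self]
  obtain ⟨y, h1, h2, h3⟩ := scale G hG S hS rep
    (fun e he u hu w hw => hrep0 _ _ (hedge e he u hu w hw)) x (fun e he => by
      rw [hxe e he (u e) (hu e)]
      rw [Ne, enc_zero, hAB (rep (u e)) e he]
      intro h
      exact h ⟨u e, hu e, rch_symm G _ _ _ (hrep2 (u e))⟩) P hP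
  exact sets G S rep hrep2 y h1 h2 h3

/-- for a circuit C it suffices that G/E(C) has a nowhere-zero 4-flow -/
theorem localFlows_of_circuit (G : MGraph V E) (C A B : Finset E)
    (hC : IsCircuit G C) (hA : Ev G A) (hB : Ev G B) (hcov : ∀ e, e ∉ C → e ∈ A ∨ e ∈ B) :
    LocalFlows G C := by
  classical
  obtain ⟨e0, he0⟩ := hC.1
  obtain ⟨p0, p1, hp01, hends0⟩ := exists_ends G e0
  have hp0 : dg G C p0 = 2 := (hC.2.1 p0).resolve_left (by
    have := dg_pos_of_mem (G := G) he0 (show p0 ∈ G.ends e0 by rw [hends0]; simp); omega)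
  intro v
  obtain ⟨K, hK⟩ : ∃ K : Finset E, K = univ.filter fun e => e ∉ C ∧
    ∃ w ∈ G.ends e, Rch G (univ \ C) v w := ⟨_, rfl⟩
  have hKm : ∀ e, e ∈ K ↔ e ∉ C ∧ ∃ w ∈ G.ends e, Rch G (univ \ C) v w := by
    intro e; rw [hK]; simp
  have key : ∀ T : Finset E, Ev G T → ∃ T' : Finset E, Ev G T' ∧
      ∀ e, e ∉ C → (e ∈ T' ↔ e ∈ T ∧ e ∈ K) := by
    intro T hT
    obtain ⟨J, hJC, hJ⟩ := join G C (fun w => ((dg G (T ∩ K) w : ℕ) : ZMod 2)) (fun _ => p0) (by
      intro w hw
      refine circ_reach G C hC w p0 ?_ hp0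
      rcases hC.2.1 w with h | h
      · exfalso
        apply hw
        show ((dg G (T ∩ K) w : ℕ) : ZMod 2) = 0
        rw [← even_iff_cast]
        by_cases hr : Rch G (univ \ C) v w
        · have h1 : dg G (T ∩ K) w = dg G T w := by
            unfold dg
            congr 1
            ext e
            simp only [mem_filter, mem_inter]
            constructor
            · rintro ⟨⟨h2, _⟩, h3⟩
              exact ⟨h2, h3⟩
            · rintro ⟨h2, h3⟩
              refine ⟨⟨h2, (hKm e).2 ⟨?_, w, h3, hr⟩⟩, h3⟩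
              intro h4
              have := dg_pos_of_mem (G := G) h4 h3
              omega
          rw [h1]
          exact hT w
        · have h1 : dg G (T ∩ K) w = 0 := by
            unfold dg
            rw [card_eq_zero, filter_eq_empty_iff]
            intro e he hwe
            obtain ⟨h2, w', hw', hr'⟩ := (hKm e).1 (mem_inter.1 he).2
            apply hr
            refine hr'.trans ?_
            by_cases huw : w' = w
            · rw [huw]
            · exact Relation.ReflTransGen.single
                ⟨e, mem_sdiff.2 ⟨mem_univ _, h2⟩, (Sym2.mem_and_mem_iff huw).1 ⟨hw', hwe⟩⟩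
          rw [h1]
          decide
      · exact h)
    have hJ' : ∀ w, ((dg G J w : ℕ) : ZMod 2) = ((dg G (T ∩ K) w : ℕ) : ZMod 2) := by
      intro w
      rw [hJ w]
      have h1 : ∑ v, ((dg G (T ∩ K) v : ℕ) : ZMod 2) = 0 := by
        rw [← Nat.cast_sum]
        exact (even_iff_cast _).1 (handshake G (T ∩ K))
      by_cases hw : w = p0
      · simp [hw, h1]
      · simp [hw]
    have hdis : Disjoint J (T ∩ K) := by
      rw [disjoint_left]
      intro e he h
      exact ((hKm e).1 (mem_inter.1 h).2).1 (hJC he)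
    refine ⟨(T ∩ K) ∪ J, ?_, ?_⟩
    · intro w
      have h1 := dg_sdiff (G := G) (X := (T ∩ K) ∪ J) (Y := T ∩ K) subset_union_left w
      have h3 : ((T ∩ K) ∪ J) \ (T ∩ K) = J := by
        rw [union_sdiff_left]
        exact sdiff_eq_self_of_disjoint hdis
      rw [h3] at h1
      rw [even_iff_cast, ← h1, Nat.cast_add, hJ' w]
      exact CharTwo.add_self_eq_zero _
    · intro e he
      rw [mem_union, mem_inter]
      constructor
      · rintro (h | h)
        · exact h
        · exact absurd (hJC h) he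
      · intro h
        exact Or.inl h
  obtain ⟨A', hA', hA2⟩ := key A hA
  obtain ⟨B', hB', hB2⟩ := key B hB
  refine ⟨A', B', hA', hB', fun e he => ?_⟩
  rw [hA2 e he, hB2 e he, ← or_and_right, hKm]
  constructor
  · rintro ⟨_, _, h⟩
    exact h
  · intro h
    exact ⟨hcov e he, he, h⟩

end Pool.Agent.Q108.FF
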