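import Mathlib

set_option autoImplicit false

/-!
The field with four elements, its conjugation, and a parity lemma: for every Hermitian matrix `g`
over this field there is a vector without zero entries all of whose local values
`conj (l i) * (g l) i` lie in the prime field.
-/

namespace Pool.Agent.Q108.FF

open Finset

/-- The field with four elements `0, 1, w, v = w + 1 = w * w`. -/
inductive F4 : Type
  | o : F4
  | i : F4
  | w : F4
  | v : F4
deriving DecidableEq

instance : Fintype F4 := ⟨{F4.o, F4.i, F4.w, F4.v}, by intro x; cases x <;> decide⟩

namespace F4

/-- addition -/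
def add : F4 → F4 → F4
  | o, y => y
  | x, o => x
  | i, i => o
  | i, w => v
  | i, v => w
  | w, i => v
  | w, w => o
  | w, v => i
  | v, i => w
  | v, w => i
  | v, v => o

/-- multiplication -/
def mul : F4 → F4 → F4
  | o, _ => o
  | _, o => o
  | i, y => y
  | x, i => x
  | w, w => v
  | w, v => i
  | v, w => i
  | v, v => w

/-- inverse -/
def inv : F4 → F4
  | o => o
  | i => i
  | w => v
  | v => w

instance : Zero F4 := ⟨o⟩
instance : One F4 := ⟨i⟩
instance : Add F4 := ⟨add⟩
instance : Mul F4 := ⟨mul⟩
instance : Neg F4 := ⟨id⟩
instance : Inv F4 := ⟨inv⟩

instance : Field F4 where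
  add_assoc := by decide
  zero_add := by decide
  add_zero := by decide
  add_comm := by decide
  mul_assoc := by decide
  one_mul := by decide
  mul_one := by decide
  mul_comm := by decide
  left_distrib := by decide
  right_distrib := by decide
  zero_mul := by decide
  mul_zero := by decide
  neg_add_cancel := by decide
  mul_inv_cancel := by decide
  inv_zero := by decide
  exists_pair_ne := ⟨0, 1, by decide⟩
  nsmul := nsmulRec
  zsmul := zsmulRec
  nnqsmul := _
  nnqsmul_def := fun _ _ => rfl
  qsmul := _
  qsmul_def := fun _ _ => rfl

theorem add_self (x : F4) : x + x = 0 := by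
  revert x; decide

instance : CharP F4 2 := CharTwo.of_one_ne_zero_of_two_eq_zero (by decide) (by decide)

/-- conjugation -/
def conj (x : F4) : F4 := x * x

/-- `conj` is additive -/
theorem conj_add (x y : F4) : conj (x + y) = conj x + conj y := by
  revert x y; decide

theorem conj_mul (x y : F4) : conj (x * y) = conj x * conj y := by
  revert x y; decide

theorem conj_conj (x : F4) : conj (conj x) = x := by
  revert x; decide

end F4

end Pool.Agent.Q108.FF
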