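import Pool.Agent.Q108.FF.Cover

set_option autoImplicit false
set_option linter.unusedSectionVars false

open Finset

/-!
A circuit C of a cubic graph is a member of a 5-cycle double cover if and only if G - E(C) has a
proper 3-edge-colouring.
-/

namespace Pool.Agent.Q108.FF

open Pool.Agent.Helper347.Sab
open Pool.Agent.Results.MP_0c3aa4_co.ThroughDominating
open Pool.Agent.Helper998.Near

variable {V E : Type} [Fintype V] [DecidableEq V] [Fintype E] [DecidableEq E]

/-- A family of k even edge sets such that every edge lies in exactly two of them. -/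
def IsKCDC (G : MGraph V E) (k : ℕ) (D : Fin k → Finset E) : Prop :=
  (∀ i v, Even (dg G (D i) v)) ∧ ∀ e, (univ.filter fun i => e ∈ D i).card = 2

/-- The edges of F can be coloured with three colours such that distinct edges sharing a vertex
have distinct colours. -/
def ThreeColourable (G : MGraph V E) (F : Finset E) : Prop :=
  ∃ c : E → Fin 3, ∀ e ∈ F, ∀ f ∈ F, e ≠ f → Touch G e f → c e ≠ c f

theorem five_of (G : MGraph V E) (S A B D : Finset E) (hS : Ev G S) (hA : Ev G A) (hB : Ev G B)
    (hD : Ev G D) (hcov : ∀ e, e ∉ S → e ∈ A ∨ e ∈ B)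
    (hDS : ∀ e ∈ S, (e ∈ D ↔ e ∉ A ∧ e ∉ B)) :
    ∃ F : Fin 5 → Finset E, IsKCDC G 5 F ∧ F 0 = S := by
  refine ⟨![S, D, symmDiff (symmDiff S D) A, symmDiff (symmDiff S D) B,
    symmDiff (symmDiff S D) (symmDiff A B)], ⟨?_, ?_⟩, rfl⟩
  · intro i
    have h1 : Ev G (symmDiff S D) := ev_symmDiff hS hD
    fin_cases i
    · exact hS
    · exact hD
    · exact ev_symmDiff h1 hA
    · exact ev_symmDiff h1 hB
    · exact ev_symmDiff h1 (ev_symmDiff hA hB)
  · intro e
    have c1 := hcov e
    have c2 := hDS e
    rw [card_filter, Fin.sum_univ_five]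
    simp only [Matrix.cons_val_zero, Matrix.cons_val_one, Matrix.cons_val, mem_symmDiff]
    by_cases d1 : e ∈ S <;> by_cases d2 : e ∈ A <;> by_cases d3 : e ∈ B <;> by_cases d4 : e ∈ D <;>
      simp_all

/-- the number of edges of colour different from k at a vertex of degree three with three colours -/
theorem two_left (s : Finset E) (hs : s.card = 3) (c : E → Fin 3)
    (hc : ∀ e ∈ s, ∀ f ∈ s, e ≠ f → c e ≠ c f) (k : Fin 3) :
    (s.filter fun e => c e ≠ k).card = 2 := by
  have hinj : Set.InjOn c (s : Set E) := by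
    intro e he f hf h
    by_contra h2
    exact hc e he f hf h2 h
  have h1 : s.image c = univ := by
    apply eq_univ_of_card
    rw [card_image_of_injOn hinj, hs]
    rfl
  have h2 : (s.filter fun e => c e = k).card = 1 := by
    rw [card_eq_one]
    have h3 : k ∈ s.image c := by rw [h1]; exact mem_univ _
    obtain ⟨e, he, hk⟩ := mem_image.1 h3
    refine ⟨e, ?_⟩
    ext f
    rw [mem_filter, mem_singleton]
    constructor
    · rintro ⟨hf, h4⟩
      exact hinj hf he (h4.trans hk.symm)
    · rintro rfl
      exact ⟨he, hk⟩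
  have h3 := card_filter_add_card_filter_not (s := s) (fun e => c e = k)
  have h4 : (s.filter fun e => c e ≠ k).card = (s.filter fun e => ¬ c e = k).card := rfl
  rw [h4]
  omega

/-- an even set T outside a circuit C except at the vertices of C can be completed inside C -/
theorem complete_in (G : MGraph V E) (C T : Finset E) (hC : IsCircuit G C) (hTC : Disjoint T C)
    (hT : ∀ v, dg G C v = 0 → Even (dg G T v)) :
    ∃ T' : Finset E, Ev G T' ∧ ∀ e, e ∉ C → (e ∈ T' ↔ e ∈ T) := by
  obtain ⟨e0, he0⟩ := hC.1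
  obtain ⟨p0, p1, hp01, hends0⟩ := exists_ends G e0
  have hp0 : dg G C p0 = 2 := (hC.2.1 p0).resolve_left (by
    have := dg_pos_of_mem (G := G) he0 (show p0 ∈ G.ends e0 by rw [hends0]; simp); omega)
  obtain ⟨J, hJC, hJ⟩ := join G C (fun w => ((dg G T w : ℕ) : ZMod 2)) (fun _ => p0) (by
    intro w hw
    refine circ_reach G C hC w p0 ?_ hp0
    rcases hC.2.1 w with h | h
    · exact absurd ((even_iff_cast _).1 (hT w h)) hw
    · exact h)
  have hJ' : ∀ w, ((dg G J w : ℕ) : ZMod 2) = ((dg G T w : ℕ) : ZMod 2) := by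
    intro w
    rw [hJ w]
    have h1 : ∑ v, ((dg G T v : ℕ) : ZMod 2) = 0 := by
      rw [← Nat.cast_sum]
      exact (even_iff_cast _).1 (handshake G T)
    by_cases hw : w = p0
    · simp [hw, h1]
    · simp [hw]
  have hdis : Disjoint J T := by
    rw [disjoint_left]
    intro e he h
    exact (disjoint_left.1 hTC h) (hJC he)
  refine ⟨T ∪ J, ?_, ?_⟩
  · intro w
    have h1 := dg_sdiff (G := G) (X := T ∪ J) (Y := T) subset_union_left w
    have h3 : (T ∪ J) \ T = J := by
      rw [union_sdiff_left]
      exact sdiff_eq_self_of_disjoint hdis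
    rw [h3] at h1
    rw [even_iff_cast, ← h1, Nat.cast_add, hJ' w]
    exact CharTwo.add_self_eq_zero _
  · intro e he
    rw [mem_union]
    constructor
    · rintro (h | h)
      · exact h
      · exact absurd (hJC h) he
    · intro h
      exact Or.inl h

/-- a 3-edge-colouring of G - E(C) gives a nowhere-zero 4-flow of G/E(C) -/
theorem flow_of_colouring (G : MGraph V E) (hG : IsCubic G) (C : Finset E) (hC : IsCircuit G C)
    (h : ThreeColourable G (univ \ C)) :
    ∃ A B : Finset E, Ev G A ∧ Ev G B ∧ ∀ e, e ∉ C → e ∈ A ∨ e ∈ B := by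
  obtain ⟨c, hc⟩ := h
  have key : ∀ k : Fin 3, ∃ T' : Finset E, Ev G T' ∧ ∀ e, e ∉ C → (e ∈ T' ↔ c e ≠ k) := by
    intro k
    obtain ⟨T', h1, h2⟩ := complete_in G C ((univ \ C).filter fun e => c e ≠ k) hC (by
      rw [disjoint_left]
      intro e he
      rw [mem_filter, mem_sdiff] at he
      exact he.1.2) (by
      intro v hv
      have hoff : ∀ e, v ∈ G.ends e → e ∉ C := by
        intro e he hec
        have := dg_pos_of_mem (G := G) hec he
        omega
      have h3 : dg G ((univ \ C).filter fun e => c e ≠ k) v =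
          ((univ.filter fun e => v ∈ G.ends e).filter fun e => c e ≠ k).card := by
        unfold dg
        congr 1
        ext e
        simp only [mem_filter, mem_sdiff, mem_univ, true_and]
        constructor
        · rintro ⟨⟨_, h4⟩, h5⟩
          exact ⟨h5, h4⟩
        · rintro ⟨h5, h4⟩
          exact ⟨⟨hoff e h5, h4⟩, h5⟩
      rw [h3, two_left _ (hG v) c ?_ k]
      · decide
      · intro e he f hf hef
        rw [mem_filter] at he hf
        exact hc e (mem_sdiff.2 ⟨mem_univ _, hoff e he.2⟩) f
          (mem_sdiff.2 ⟨mem_univ _, hoff f hf.2⟩) hef ⟨v, he.2, hf.2⟩)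
    refine ⟨T', h1, fun e he => ?_⟩
    rw [h2 e he, mem_filter, mem_sdiff]
    constructor
    · exact fun h3 => h3.2
    · exact fun h3 => ⟨⟨mem_univ _, he⟩, h3⟩
  obtain ⟨A, hA, hA2⟩ := key 0
  obtain ⟨B, hB, hB2⟩ := key 1
  refine ⟨A, B, hA, hB, fun e he => ?_⟩
  rw [hA2 e he, hB2 e he]
  generalize c e = z
  revert z
  decide

/-- a nowhere-zero 4-flow of G/E(C) makes the circuit C a member of a 5-cycle double cover -/
theorem five_of_flow (G : MGraph V E) (hG : IsCubic G) (C A B : Finset E) (hC : IsCircuit G C)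
    (hA : Ev G A) (hB : Ev G B) (hcov : ∀ e, e ∉ C → e ∈ A ∨ e ∈ B) :
    ∃ F : Fin 5 → Finset E, IsKCDC G 5 F ∧ F 0 = C := by
  obtain ⟨A', B', D, h1, h2, h3, h4, h5⟩ := many G hG C hC.2.1
    (localFlows_of_circuit G C A B hC hA hB hcov)
  refine five_of G C A' B' D ?_ h1 h2 h3 h4 h5
  intro v
  rcases hC.2.1 v with h | h <;> rw [h] <;> decide

/-- the colour read off from the membership bits of an edge in the first three sets -/
def bcol (a b c : Bool) : Fin 3 := if a = b then 0 else if a = c then 1 else 2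

theorem bcol_ne : ∀ a1 a2 a3 a4 b1 b2 b3 b4 : Bool,
    a1.toNat + a2.toNat + a3.toNat + a4.toNat = 2 → b1.toNat + b2.toNat + b3.toNat + b4.toNat = 2 →
    (xor a1 b1).toNat + (xor a2 b2).toNat + (xor a3 b3).toNat + (xor a4 b4).toNat = 2 →
    bcol a1 a2 a3 ≠ bcol b1 b2 b3 := by decide

theorem third_xor : ∀ a b c : Bool, (a.toNat + (b.toNat + c.toNat)) % 2 = 0 → c = xor a b := by
  decide

/-- the converse -/
theorem colouring_of_five (G : MGraph V E) (C : Finset E) (F : Fin 5 → Finset E)
    (hF : IsKCDC G 5 F) (h0 : F 0 = C) (hreg : ∀ v, dg G C v = 0 ∨ dg G C v = 2)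
    (hG : IsCubic G) : ThreeColourable G (univ \ C) := by
  classical
  -- type of an edge outside C: which of the sets 2, 3, 4 agrees with the set 1
  have hcnt : ∀ e, e ∉ C → (univ.filter fun i => e ∈ F i).card = 2 ∧ e ∉ F 0 := by
    intro e he
    exact ⟨hF.2 e, by rw [h0]; exact he⟩
  refine ⟨fun e => bcol (decide (e ∈ F 1)) (decide (e ∈ F 2)) (decide (e ∈ F 3)), ?_⟩
  intro e he f hf hef ⟨v, hve, hvf⟩
  have heC := (mem_sdiff.1 he).2
  have hfC := (mem_sdiff.1 hf).2
  -- v is off C, its third edge is g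
  have hv0 : dg G C v = 0 := by
    rcases hreg v with h | h
    · exact h
    · exfalso
      have h1 := dg_sdiff (G := G) (X := univ) (Y := C) (subset_univ _) v
      rw [hG v, h] at h1
      have h2 : 2 ≤ dg G (univ \ C) v := by
        unfold dg
        have h3 : ({e, f} : Finset E) ⊆ (univ \ C).filter fun e => v ∈ G.ends e := by
          intro x hx
          rw [mem_insert, mem_singleton] at hx
          rw [mem_filter]
          rcases hx with rfl | rfl
          · exact ⟨he, hve⟩
          · exact ⟨hf, hvf⟩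
        have h4 := card_le_card h3
        rw [card_pair hef] at h4
        exact h4
      omega
  have h3 : (((univ : Finset E).filter fun e => v ∈ G.ends e).erase e).erase f ≠ ∅ := by
    intro h
    have h4 := hG v
    unfold dg at h4
    have h5 : e ∈ (univ : Finset E).filter fun e => v ∈ G.ends e := mem_filter.2 ⟨mem_univ _, hve⟩
    have h6 : f ∈ ((univ : Finset E).filter fun e => v ∈ G.ends e).erase e :=
      mem_erase.2 ⟨Ne.symm hef, mem_filter.2 ⟨mem_univ _, hvf⟩⟩
    have h7 := card_erase_of_mem h6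
    rw [card_erase_of_mem h5, h4, h] at h7
    simp at h7
  obtain ⟨g, hg⟩ := nonempty_iff_ne_empty.2 h3
  rw [mem_erase, mem_erase, mem_filter] at hg
  obtain ⟨hgf, hge, _, hvg⟩ := hg
  have hset : (univ : Finset E).filter (fun e => v ∈ G.ends e) = {e, f, g} := by
    symm
    apply eq_of_subset_of_card_le
    · intro x hx
      simp only [mem_insert, mem_singleton] at hx
      rw [mem_filter]
      refine ⟨mem_univ _, ?_⟩
      rcases hx with rfl | rfl | rfl
      · exact hve
      · exact hvf
      · exact hvg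
    · have h4 := hG v
      unfold dg at h4
      rw [h4, card_insert_of_notMem (by simp [hef, Ne.symm hge]), card_pair (Ne.symm hgf)]
  have hgC : g ∉ C := by
    intro h
    have := dg_pos_of_mem (G := G) h hvg
    omega
  have hbit : ∀ (x : E) (i : Fin 5), (if x ∈ F i then 1 else 0) = (decide (x ∈ F i)).toNat := by
    intro x i
    by_cases h : x ∈ F i <;> simp [h]
  have hpar : ∀ i, decide (g ∈ F i) = xor (decide (e ∈ F i)) (decide (f ∈ F i)) := by
    intro i
    have h4 := hF.1 i v
    have h5 : dg G (F i) v = (decide (e ∈ F i)).toNat + ((decide (f ∈ F i)).toNat +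
      (decide (g ∈ F i)).toNat) := by
      unfold dg
      have h6 : (F i).filter (fun e => v ∈ G.ends e) =
          ((univ : Finset E).filter fun e => v ∈ G.ends e).filter fun e => e ∈ F i := by
        ext x
        simp only [mem_filter, mem_univ, true_and]
        tauto
      rw [h6, hset, card_filter, sum_insert (by simp [hef, Ne.symm hge]),
        sum_pair (Ne.symm hgf), hbit, hbit, hbit]
    rw [h5, Nat.even_iff] at h4
    exact third_xor _ _ _ h4
  have hw : ∀ x, x ∉ C → (decide (x ∈ F 1)).toNat + (decide (x ∈ F 2)).toNat +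
      (decide (x ∈ F 3)).toNat + (decide (x ∈ F 4)).toNat = 2 := by
    intro x hx
    obtain ⟨h4, h5⟩ := hcnt x hx
    rw [card_filter, Fin.sum_univ_five, hbit, hbit, hbit, hbit, hbit] at h4
    have h6 : (decide (x ∈ F 0)).toNat = 0 := by simp [h5]
    omega
  have he5 := hw e heC
  have hf5 := hw f hfC
  have hg5 := hw g hgC
  rw [hpar 1, hpar 2, hpar 3, hpar 4] at hg5
  exact bcol_ne _ _ _ _ _ _ _ _ he5 hf5 hg5

end Pool.Agent.Q108.FF
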