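import Pool.Agent.Q108.FF.F4

set_option autoImplicit false

/-!
A parity lemma: for every Hermitian matrix `g` over the field with four elements there is a vector
`l` without zero entries all of whose local values `conj (l i) * (g l) i` are `0` or `1`.
-/

namespace Pool.Agent.Q108.FF

open Finset

variable {n : Type} [Fintype n] [DecidableEq n]

/-- the matrix `g` with the 0/1 vector `d` added to the diagonal -/
def shift (g : Matrix n n F4) (d : n → Bool) : Matrix n n F4 :=
  g + Matrix.diagonal fun i => if d i then 1 else 0

theorem sum_det (g : Matrix n n F4) : ∑ d : n → Bool, (shift g d).det = 1 := by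
  have h1 : ∀ d : n → Bool, (shift g d).det =
      ∑ s : Equiv.Perm n, ((Equiv.Perm.sign s : ℤ) : F4) *
        ∏ i, (g (s i) i + if s i = i then (if d i then 1 else 0) else 0) := by
    intro d
    rw [Matrix.det_apply']
    refine sum_congr rfl fun s _ => ?_
    congr 1
    refine prod_congr rfl fun i _ => ?_
    unfold shift
    rw [Matrix.add_apply, Matrix.diagonal_apply]
    by_cases h : s i = i
    · rw [if_pos h, if_pos h, h]
    · rw [if_neg h, if_neg h]
  simp only [h1]
  rw [sum_comm]
  have h2 : ∀ s : Equiv.Perm n, ∑ d : n → Bool, ((Equiv.Perm.sign s : ℤ) : F4) *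
        ∏ i, (g (s i) i + if s i = i then (if d i then 1 else 0) else 0) =
      ((Equiv.Perm.sign s : ℤ) : F4) * ∏ i, (if s i = i then (1 : F4) else 0) := by
    intro s
    rw [← mul_sum]
    congr 1
    have h3 : ∀ i, (if s i = i then (1 : F4) else 0) =
        ∑ b : Bool, (g (s i) i + if s i = i then (if b then 1 else 0) else 0) := by
      intro i
      rw [Fintype.sum_bool]
      by_cases h : s i = i
      · simp only [h, if_true]
        have : ∀ x : F4, 1 = x + 1 + (x + 0) := by decide
        exact this _
      · simp only [h, if_false]
        have : ∀ x : F4, 0 = x + 0 + (x + 0) := by decide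
        exact this _
    simp only [h3]
    rw [prod_univ_sum, Fintype.piFinset_univ]
  rw [sum_congr rfl fun s _ => h2 s]
  rw [sum_eq_single (1 : Equiv.Perm n)]
  · simp
  · intro s _ hs
    obtain ⟨i, hi⟩ : ∃ i, s i ≠ i := by
      by_contra h
      push Not at h
      exact hs (Equiv.ext h)
    rw [prod_eq_zero (mem_univ i) (if_neg hi), mul_zero]
  · intro h
    exact absurd (mem_univ _) h

/-- conjugation as a ring homomorphism -/
def conjHom : F4 →+* F4 where
  toFun := F4.conj
  map_one' := by decide
  map_mul' := F4.conj_mul
  map_zero' := by decide
  map_add' := F4.conj_add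

theorem det_herm (g : Matrix n n F4) (hg : ∀ i j, g i j = F4.conj (g j i)) :
    g.det = 0 ∨ g.det = 1 := by
  have h1 : g.det = F4.conj g.det := by
    have h2 : conjHom g.det = (conjHom.mapMatrix g).det := RingHom.map_det conjHom g
    have h3 : conjHom.mapMatrix g = g.transpose := by
      ext i j
      show F4.conj (g i j) = g j i
      exact (hg j i).symm
    rw [h3, Matrix.det_transpose] at h2
    exact h2.symm
  revert h1
  generalize g.det = x
  revert x
  decide

open Classical in
theorem sum_ker (g : Matrix n n F4) :
    ∑ l : n → F4, (if g.mulVec l = 0 then (1 : F4) else 0) = if g.det = 0 then 0 else 1 := by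
  by_cases h : g.det = 0
  · rw [if_pos h]
    obtain ⟨v, hv, hv0⟩ := Matrix.exists_mulVec_eq_zero_iff.2 h
    refine sum_involution (fun l _ => l + v) ?_ ?_ ?_ ?_
    · intro l _
      rw [Matrix.mulVec_add, hv0, add_zero]
      exact F4.add_self _
    · intro l _ _ h2
      apply hv
      have : l + v = l + 0 := by rw [h2, add_zero]
      exact add_left_cancel this
    · intro l _
      exact mem_univ _
    · intro l _
      ext i
      have : ∀ a b : F4, a + b + b = a := by decide
      exact this _ _
  · rw [if_neg h, sum_eq_single (0 : n → F4)]
    · rw [Matrix.mulVec_zero, if_pos rfl]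
    · intro l _ hl
      rw [if_neg]
      intro h2
      exact hl (Matrix.eq_zero_of_mulVec_eq_zero h h2)
    · intro h2
      exact absurd (mem_univ _) h2

/-- the parity lemma -/
theorem herm (g : Matrix n n F4) (hg : ∀ i j, g i j = F4.conj (g j i)) :
    ∃ l : n → F4, (∀ i, l i ≠ 0) ∧
      ∀ i, F4.conj (l i) * g.mulVec l i = 0 ∨ F4.conj (l i) * g.mulVec l i = 1 := by
  classical
  by_contra hcon
  push Not at hcon
  have h1 : ∑ d : n → Bool, ∑ l : n → F4, (if (shift g d).mulVec l = 0 then (1 : F4) else 0) = 1 := by
    refine Eq.trans (sum_congr rfl fun d _ => ?_) (sum_det g)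
    rw [sum_ker]
    have hh : ∀ i j, shift g d i j = F4.conj (shift g d j i) := by
      intro i j
      unfold shift
      rw [Matrix.add_apply, Matrix.add_apply, F4.conj_add, ← hg i j, Matrix.diagonal_apply,
        Matrix.diagonal_apply]
      by_cases h : i = j
      · subst h
        rw [if_pos rfl]
        congr 1
        cases d i
        · rfl
        · rfl
      · rw [if_neg h, if_neg (Ne.symm h)]
        rfl
    rcases det_herm _ hh with h | h
    · rw [if_pos h, h]
    · rw [h, if_neg one_ne_zero]
  rw [sum_comm] at h1
  have h2 : ∀ l : n → F4, ∑ d : n → Bool,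
      (if (shift g d).mulVec l = 0 then (1 : F4) else 0) = 0 := by
    intro l
    have hmv : ∀ (d : n → Bool) (i : n), (shift g d).mulVec l i =
        g.mulVec l i + if d i then l i else 0 := by
      intro d i
      unfold shift
      rw [Matrix.add_mulVec, Pi.add_apply, Matrix.mulVec_diagonal]
      cases d i <;> simp
    by_cases hl : ∃ i, l i = 0
    · obtain ⟨i, hi⟩ := hl
      refine sum_involution (fun d _ => Function.update d i (!(d i))) ?_ ?_ ?_ ?_
      · intro d _
        have h3 : (shift g (Function.update d i (!(d i)))).mulVec l = (shift g d).mulVec l := by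
          ext j
          rw [hmv, hmv]
          by_cases hj : j = i
          · subst hj
            simp [hi]
          · rw [Function.update_of_ne hj]
        rw [h3]
        exact F4.add_self _
      · intro d _ _ h4
        have h5 := congrFun h4 i
        rw [Function.update_self] at h5
        cases h6 : d i <;> rw [h6] at h5 <;> simp at h5
      · intro d _
        exact mem_univ _
      · intro d _
        ext j
        by_cases hj : j = i
        · subst hj
          simp
        · simp [Function.update_of_ne hj]
    · push Not at hl
      refine sum_eq_zero fun d _ => ?_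
      rw [if_neg]
      intro h3
      obtain ⟨i, h4, h5⟩ := hcon l hl
      have h6 : g.mulVec l i + (if d i then l i else 0) = 0 := by
        rw [← hmv, h3]; rfl
      have h7 := hl i
      revert h4 h5 h6 h7
      generalize g.mulVec l i = a
      generalize l i = b
      cases d i
      · revert a b; decide
      · revert a b; decide
  rw [sum_congr rfl fun l _ => h2 l] at h1
  simp at h1

end Pool.Agent.Q108.FF
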