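import Pool.Agent.Q108.FF.Herm
import Pool.Agent.Helper998.Near.Bridge

set_option autoImplicit false
set_option linter.unusedSectionVars false

open Finset

/-!
Rescaling the parts of a flow with values in the field with four elements: if the parts of a
nowhere-zero flow of G/S on the components of G - E(S) are themselves flows, then they can be
multiplied by nonzero constants such that afterwards every component of G - E(S) contains an even
number of ends of the edges of S with value zero.
-/

namespace Pool.Agent.Q108.FF

open Pool.Agent.Helper347.Sab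
open Pool.Agent.Results.MP_0c3aa4_co.ThroughDominating
open Pool.Agent.Helper998.Near

variable {V E : Type} [Fintype V] [DecidableEq V] [Fintype E] [DecidableEq E]

/-- the sum of f over the edges of S at w -/
def sm (G : MGraph V E) (S : Finset E) (f : E → F4) (w : V) : F4 :=
  ∑ e ∈ S, if w ∈ G.ends e then f e else 0

theorem sm_total (G : MGraph V E) (S : Finset E) (f : E → F4) : ∑ w, sm G S f w = 0 := by
  unfold sm
  rw [sum_comm]
  refine sum_eq_zero fun e _ => ?_
  rw [← sum_filter, sum_const, card_ends, two_smul]
  exact F4.add_self _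

theorem sm_filter (G : MGraph V E) (S : Finset E) (f : E → F4) (w : V) :
    sm G S f w = ∑ e ∈ S.filter (fun e => w ∈ G.ends e), f e := by
  unfold sm
  rw [sum_filter]

theorem sm_zero (G : MGraph V E) (S : Finset E) (f : E → F4) (w : V) (h : dg G S w = 0) :
    sm G S f w = 0 := by
  unfold dg at h
  rw [sm_filter, card_eq_zero.1 h, sum_empty]

open Classical in
/-- the value of f at an edge of S at w -/
noncomputable def pk (G : MGraph V E) (S : Finset E) (f : E → F4) (w : V) : F4 :=
  if h : ∃ e, e ∈ S ∧ w ∈ G.ends e then f h.choose else 0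

theorem at2 (G : MGraph V E) (S : Finset E) (w : V) (h : dg G S w = 2) :
    ∃ e1 ∈ S, ∃ e2 ∈ S, (∀ f, sm G S f w = f e1 + f e2) ∧ ∀ f, pk G S f w = f e1 := by
  have h0 : ∃ e, e ∈ S ∧ w ∈ G.ends e := by
    obtain ⟨e, he, hw⟩ := exists_mem_of_dg_pos (G := G) (X := S) (v := w) (by omega)
    exact ⟨e, he, hw⟩
  have h1 : h0.choose ∈ S.filter fun e => w ∈ G.ends e := mem_filter.2 h0.choose_spec
  have h2 : ((S.filter fun e => w ∈ G.ends e).erase h0.choose).card = 1 := by
    rw [card_erase_of_mem h1]
    unfold dg at h
    omega
  obtain ⟨e2, he2⟩ := card_eq_one.1 h2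
  have h3 : e2 ∈ (S.filter fun e => w ∈ G.ends e).erase h0.choose := by rw [he2]; simp
  rw [mem_erase, mem_filter] at h3
  refine ⟨h0.choose, h0.choose_spec.1, e2, h3.2.1, fun f => ?_, fun f => ?_⟩
  · rw [sm_filter, ← add_sum_erase _ _ h1, he2, sum_singleton]
  · unfold pk
    rw [dif_pos h0]

theorem at1 (G : MGraph V E) (hG : IsCubic G) (S : Finset E) (w : V) (h : dg G S w = 2) :
    ∃ a, a ∉ S ∧ w ∈ G.ends a ∧ ∀ f, sm G (univ \ S) f w = f a := by
  have h1 := dg_sdiff (G := G) (X := univ) (Y := S) (subset_univ _) w
  rw [hG w, h] at h1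
  have h2 : ((univ \ S).filter fun e => w ∈ G.ends e).card = 1 := by
    unfold dg at h1
    omega
  obtain ⟨a, ha⟩ := card_eq_one.1 h2
  have h3 : a ∈ (univ \ S).filter fun e => w ∈ G.ends e := by rw [ha]; simp
  rw [mem_filter, mem_sdiff] at h3
  refine ⟨a, h3.1.2, h3.2, fun f => ?_⟩
  rw [sm_filter, ha, sum_singleton]

/-- zero indicator -/
def nz (z : F4) : F4 := if z = 0 then 1 else 0

/-- trace -/
def tr (z : F4) : F4 := z + F4.conj z

theorem tr_add (a b : F4) : tr (a + b) = tr a + tr b := by
  unfold tr
  rw [F4.conj_add]
  ring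

theorem tr_sum {ι : Type} (s : Finset ι) (f : ι → F4) : tr (∑ i ∈ s, f i) = ∑ i ∈ s, tr (f i) := by
  classical
  induction s using Finset.induction_on with
  | empty =>
    rw [sum_empty, sum_empty]
    decide
  | insert a s ha ih => rw [sum_insert ha, sum_insert ha, tr_add, ih]

theorem id1 : ∀ p1 p2 q1 q2 : F4, q1 + q2 = 0 →
    F4.conj p1 * q1 + F4.conj p2 * q2 = F4.conj (p1 + p2) * q1 := by decide

theorem id2 : ∀ p1 p2 q1 q2 : F4, p1 + p2 = 0 →
    F4.conj p1 * q1 + F4.conj p2 * q2 = F4.conj p1 * (q1 + q2) := by decide

theorem id3 : ∀ l x p r : F4, l ≠ 0 → x ≠ 0 →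
    nz (l * p + r) + nz (l * p + r + l * x) =
      nz p + nz (p + x) + tr (F4.conj l * (F4.conj x * r)) := by decide

theorem id4 : ∀ a b : F4, a + b = 0 → nz a + nz b = 0 := by decide

theorem id5 : ∀ a b c : F4, a + b = c → b = a + c := by decide

/-- the scaling theorem -/
theorem scale (G : MGraph V E) (hG : IsCubic G) (S : Finset E) (hS : TwoRegular G S)
    (rep : V → V) (hrep1 : ∀ e, e ∉ S → ∀ u ∈ G.ends e, ∀ w ∈ G.ends e, rep u = rep w)
    (x : E → F4) (hx0 : ∀ e, e ∉ S → x e ≠ 0) (P : V → E → F4)
    (hP : ∀ K w, sm G S (P K) w = if rep w = K then sm G (univ \ S) x w else 0) :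
    ∃ y : E → F4, (∀ e, e ∉ S → y e ≠ 0) ∧ (∀ w, sm G S y w + sm G (univ \ S) y w = 0) ∧
      ∀ K, ∑ w, (if rep w = K then sm G S (fun e => nz (y e)) w else 0) = 0 := by
  classical
  obtain ⟨X, hX⟩ : ∃ X : V → F4, X = fun w => sm G (univ \ S) x w := ⟨_, rfl⟩
  have hXw : ∀ w, sm G (univ \ S) x w = X w := fun w => by rw [hX]
  simp only [hXw] at hP
  have hX0 : ∀ w, dg G S w = 0 → X w = 0 := by
    intro w hw
    have h := hP (rep w) w
    rw [if_pos rfl, sm_zero _ _ _ _ hw] at h
    exact h.symm
  have hX2 : ∀ w, dg G S w = 2 → X w ≠ 0 := by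
    intro w hw
    obtain ⟨a, ha, _, h⟩ := at1 G hG S w hw
    rw [← hXw, h]
    exact hx0 a ha
  obtain ⟨g, hgd⟩ : ∃ g : Matrix V V F4, g = fun K K' => if K = K' then 0 else
      ∑ w, if rep w = K then F4.conj (X w) * pk G S (P K') w else 0 := ⟨_, rfl⟩
  have hg : ∀ K K', g K K' = F4.conj (g K' K) := by
    intro K K'
    rw [hgd]
    by_cases hK : K = K'
    · subst hK
      simp only [if_true]
      decide
    · show (if K = K' then 0 else _) = F4.conj (if K' = K then 0 else _)
      rw [if_neg hK, if_neg (Ne.symm hK)]
      have key : ∀ w, sm G S (fun e => F4.conj (P K e) * P K' e) w =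
          (if rep w = K then F4.conj (X w) * pk G S (P K') w else 0) +
          (if rep w = K' then F4.conj (pk G S (P K) w) * X w else 0) := by
        intro w
        rcases hS w with h | h
        · rw [sm_zero _ _ _ _ h, hX0 w h]
          have hc : F4.conj 0 = 0 := by decide
          simp [hc]
        · obtain ⟨e1, _, e2, _, hsm, hpk⟩ := at2 G S w h
          have a := hP K w
          have b := hP K' w
          rw [hsm] at a b
          rw [hsm, hpk, hpk]
          by_cases h1 : rep w = K
          · have h2 : rep w ≠ K' := fun h3 => hK (h1.symm.trans h3)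
            rw [if_pos h1] at a
            rw [if_neg h2] at b
            rw [if_pos h1, if_neg h2, add_zero, ← a]
            exact id1 _ _ _ _ b
          · rw [if_neg h1] at a
            rw [if_neg h1, zero_add]
            by_cases h2 : rep w = K'
            · rw [if_pos h2] at b
              rw [if_pos h2, ← b]
              exact id2 _ _ _ _ a
            · rw [if_neg h2] at b
              rw [if_neg h2]
              show F4.conj (P K e1) * P K' e1 + F4.conj (P K e2) * P K' e2 = 0
              rw [id1 _ _ _ _ b, a]
              have : ∀ z : F4, F4.conj 0 * z = 0 := by decide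
              exact this _
      have h1 := sm_total G S (fun e => F4.conj (P K e) * P K' e)
      simp only [key] at h1
      rw [sum_add_distrib] at h1
      have h2 : F4.conj (∑ w, if rep w = K' then F4.conj (X w) * pk G S (P K) w else 0) =
          ∑ w, if rep w = K' then F4.conj (pk G S (P K) w) * X w else 0 := by
        have h3 : ∀ z, F4.conj z = conjHom z := fun _ => rfl
        rw [h3, map_sum]
        refine sum_congr rfl fun w _ => ?_
        rw [← h3]
        by_cases h4 : rep w = K'
        · rw [if_pos h4, if_pos h4, F4.conj_mul, F4.conj_conj]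
          ring
        · rw [if_neg h4, if_neg h4]
          decide
      rw [h2]
      have h5 : ∀ a b : F4, a + b = 0 → a = b := by decide
      exact h5 _ _ h1
  obtain ⟨l, hl0, hl⟩ := herm g hg
  have hu : ∀ e, ∃ u, u ∈ G.ends e := by
    intro e
    obtain ⟨a, b, _, h⟩ := exists_ends G e
    exact ⟨a, by rw [h]; simp⟩
  choose u hu using hu
  obtain ⟨y, hy⟩ : ∃ y : E → F4, y = fun e => if e ∈ S then ∑ K, l K * P K e
      else l (rep (u e)) * x e := ⟨_, rfl⟩
  have hyon : ∀ e, e ∈ S → y e = ∑ K, l K * P K e := by
    intro e he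
    rw [hy]
    exact if_pos he
  have hyoff : ∀ e, e ∉ S → ∀ w ∈ G.ends e, y e = l (rep w) * x e := by
    intro e he w hw
    rw [hy]
    show (if e ∈ S then _ else _) = _
    rw [if_neg he, hrep1 e he (u e) (hu e) w hw]
  have hsmS : ∀ w, sm G S y w = l (rep w) * X w := by
    intro w
    have h1 : sm G S y w = ∑ K, l K * sm G S (P K) w := by
      unfold sm
      simp only [mul_sum]
      rw [sum_comm]
      refine sum_congr rfl fun e he => ?_
      by_cases hw : w ∈ G.ends e
      · simp only [hw, if_true]
        exact hyon e he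
      · simp only [hw, if_false, mul_zero, sum_const_zero]
    rw [h1]
    simp only [hP, mul_ite, mul_zero]
    rw [sum_ite_eq univ (rep w), if_pos (mem_univ _)]
  have hsmO : ∀ w, sm G (univ \ S) y w = l (rep w) * X w := by
    intro w
    rw [← hXw]
    unfold sm
    rw [mul_sum]
    refine sum_congr rfl fun e he => ?_
    by_cases hw : w ∈ G.ends e
    · rw [if_pos hw, if_pos hw]
      exact hyoff e (mem_sdiff.1 he).2 w hw
    · rw [if_neg hw, if_neg hw, mul_zero]
  refine ⟨y, ?_, ?_, ?_⟩
  · intro e he
    rw [hyoff e he (u e) (hu e)]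
    exact mul_ne_zero (hl0 _) (hx0 e he)
  · intro w
    rw [hsmS, hsmO]
    exact F4.add_self _
  · intro K
    have ht : ∀ w, rep w = K → sm G S (fun e => nz (y e)) w =
        sm G S (fun e => nz (P K e)) w + tr (F4.conj (l K) *
          ∑ K', if K = K' then 0 else (F4.conj (X w) * pk G S (P K') w) * l K') := by
      intro w hw
      rcases hS w with h | h
      · rw [sm_zero _ _ _ _ h, sm_zero _ _ _ _ h, hX0 w h]
        have hc : F4.conj 0 = 0 := by decide
        have ht0 : tr 0 = 0 := by decide
        simp [hc, ht0]
      · obtain ⟨e1, he1, e2, he2, hsm, hpk⟩ := at2 G S w h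
        have a := hP K w
        rw [hsm, if_pos hw] at a
        have hy2 := hsmS w
        rw [hsm, hw] at hy2
        rw [hsm, hsm]
        obtain ⟨R, hR⟩ : ∃ R : F4, R = ∑ K', if K = K' then 0 else l K' * P K' e1 := ⟨_, rfl⟩
        have hy1 : y e1 = l K * P K e1 + R := by
          rw [hyon e1 he1, hR]
          have h1 : ∀ K', l K' * P K' e1 = (if K = K' then l K' * P K' e1 else 0) +
              (if K = K' then 0 else l K' * P K' e1) := by
            intro K'
            by_cases hK : K = K'
            · rw [if_pos hK, if_pos hK, add_zero]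
            · rw [if_neg hK, if_neg hK, zero_add]
          rw [sum_congr rfl fun K' _ => h1 K', sum_add_distrib, sum_ite_eq univ K,
            if_pos (mem_univ _)]
        have hsum : (∑ K', if K = K' then 0 else (F4.conj (X w) * pk G S (P K') w) * l K') =
            F4.conj (X w) * R := by
          rw [hR, mul_sum]
          refine sum_congr rfl fun K' _ => ?_
          by_cases hK : K = K'
          · rw [if_pos hK, if_pos hK, mul_zero]
          · rw [if_neg hK, if_neg hK, hpk]
            ring
        rw [hsum, id5 _ _ _ hy2, id5 _ _ _ a, hy1]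
        exact id3 _ _ _ _ (hl0 K) (hX2 w h)
    have h1 : (∑ w, (if rep w = K then sm G S (fun e => nz (y e)) w else 0)) =
        (∑ w, if rep w = K then sm G S (fun e => nz (P K e)) w else 0) +
        ∑ w, (if rep w = K then tr (F4.conj (l K) *
          ∑ K', if K = K' then 0 else (F4.conj (X w) * pk G S (P K') w) * l K') else 0) := by
      rw [← sum_add_distrib]
      refine sum_congr rfl fun w _ => ?_
      by_cases hw : rep w = K
      · rw [if_pos hw, if_pos hw, if_pos hw, ht w hw]
      · rw [if_neg hw, if_neg hw, if_neg hw, add_zero]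
    rw [h1]
    have h2 : (∑ w, if rep w = K then sm G S (fun e => nz (P K e)) w else 0) = 0 := by
      refine Eq.trans (sum_congr rfl fun w _ => ?_) (sm_total G S (fun e => nz (P K e)))
      by_cases hw : rep w = K
      · rw [if_pos hw]
      · rw [if_neg hw]
        rcases hS w with h | h
        · rw [sm_zero _ _ _ _ h]
        · obtain ⟨e1, he1, e2, he2, hsm, hpk⟩ := at2 G S w h
          have a := hP K w
          rw [hsm, if_neg hw] at a
          rw [hsm]
          exact (id4 _ _ a).symm
    rw [h2, zero_add]
    have h3 : (∑ w, (if rep w = K then tr (F4.conj (l K) *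
          ∑ K', if K = K' then 0 else (F4.conj (X w) * pk G S (P K') w) * l K') else 0)) =
        tr (F4.conj (l K) * g.mulVec l K) := by
      have h4 : g.mulVec l K = ∑ w, (if rep w = K then
          ∑ K', (if K = K' then 0 else (F4.conj (X w) * pk G S (P K') w) * l K') else 0) := by
        have h5 : g.mulVec l K = ∑ K', g K K' * l K' := rfl
        rw [h5]
        have h6 : ∀ K', g K K' * l K' = ∑ w, (if rep w = K then
            (if K = K' then 0 else (F4.conj (X w) * pk G S (P K') w) * l K') else 0) := by
          intro K'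
          rw [hgd]
          show (if K = K' then 0 else _) * l K' = _
          by_cases hK : K = K'
          · simp [hK]
          · simp only [hK, if_false]
            rw [sum_mul]
            refine sum_congr rfl fun w _ => ?_
            by_cases hw : rep w = K
            · rw [if_pos hw, if_pos hw]
            · rw [if_neg hw, if_neg hw, zero_mul]
        rw [sum_congr rfl fun K' _ => h6 K', sum_comm]
        refine sum_congr rfl fun w _ => ?_
        by_cases hw : rep w = K
        · simp only [hw, if_true]
        · simp only [hw, if_false, sum_const_zero]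
      rw [h4, mul_sum, tr_sum]
      refine sum_congr rfl fun w _ => ?_
      by_cases hw : rep w = K
      · rw [if_pos hw, if_pos hw]
      · rw [if_neg hw, if_neg hw, mul_zero]
        decide
    rw [h3]
    rcases hl K with h | h <;> rw [h] <;> decide

end Pool.Agent.Q108.FF
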